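import Mathlib

namespace Pool.Agent.Results.MP_d4551b_al.Pieces

open FreeGroup (invRev)

/-- Wagner's relations for the free inverse monoid, together with the pair (w, 1). -/
def Rel {A : Type} (w : List (A × Bool)) (x y : FreeMonoid (A × Bool)) : Prop :=
  (∃ u : List (A × Bool), x = FreeMonoid.ofList (u ++ invRev u ++ u) ∧ y = FreeMonoid.ofList u) ∨
  (∃ u v : List (A × Bool), x = FreeMonoid.ofList ((u ++ invRev u) ++ (v ++ invRev v)) ∧
    y = FreeMonoid.ofList ((v ++ invRev v) ++ (u ++ invRev u))) ∨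
  (x = FreeMonoid.ofList w ∧ y = 1)

/-- The word u represents a unit of the special inverse monoid with relator w. -/
def IsU {A : Type} (w u : List (A × Bool)) : Prop :=
  IsUnit ((conGen (Rel w)).mk' (FreeMonoid.ofList u))

/-- The minimal invertible pieces of w. -/
def MinPieces {A : Type} (w : List (A × Bool)) : Set (List (A × Bool)) :=
  {u | u ≠ [] ∧ ∃ p s, w = p ++ u ++ s ∧ IsU w p ∧ IsU w (p ++ u) ∧
    ∀ v v', u = v ++ v' → v ≠ [] → v' ≠ [] → ¬ IsU w (p ++ v)}

section rep
variable {A Y : Type} (g : A → Equiv.Perm Y) (P : Set Y)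

def st (l : A × Bool) : Equiv.Perm Y := if l.2 then g l.1 else (g l.1)⁻¹

def ev : List (A × Bool) → Y → Y
  | [], x => x
  | l :: u, x => ev u (st g l x)

def Rd : List (A × Bool) → Y → Prop
  | [], x => x ∈ P
  | l :: u, x => x ∈ P ∧ Rd u (st g l x)

variable {g P}

theorem ev_append (u v : List (A × Bool)) (x : Y) : ev g (u ++ v) x = ev g v (ev g u x) := by
  induction u generalizing x with
  | nil => rfl
  | cons l u ih => simp [ev, ih]

theorem Rd.mem {u : List (A × Bool)} {x : Y} (h : Rd g P u x) : x ∈ P := by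
  cases u with
  | nil => exact h
  | cons l u => exact h.1

theorem Rd.mem_ev {u : List (A × Bool)} {x : Y} (h : Rd g P u x) : ev g u x ∈ P := by
  induction u generalizing x with
  | nil => exact h
  | cons l u ih => exact ih h.2

theorem Rd_append (u v : List (A × Bool)) (x : Y) :
    Rd g P (u ++ v) x ↔ Rd g P u x ∧ Rd g P v (ev g u x) := by
  induction u generalizing x with
  | nil => exact ⟨fun h => ⟨h.mem, h⟩, fun h => h.2⟩
  | cons l u ih => simp [Rd, ev, ih, and_assoc]

theorem st_flip (l : A × Bool) (x : Y) : st g (l.1, !l.2) (st g l x) = x := by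
  obtain ⟨a, b⟩ := l
  cases b <;> simp [st]

theorem invRev_cons' (l : A × Bool) (u : List (A × Bool)) :
    invRev (l :: u) = invRev u ++ [(l.1, !l.2)] := by simp [invRev]

theorem ev_inv (u : List (A × Bool)) (x : Y) : ev g (invRev u) (ev g u x) = x := by
  induction u generalizing x with
  | nil => rfl
  | cons l u ih => rw [invRev_cons', ev_append]; simp only [ev, ih, st_flip]

theorem Rd_inv {u : List (A × Bool)} {x : Y} (h : Rd g P u x) : Rd g P (invRev u) (ev g u x) := by
  induction u generalizing x with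
  | nil => exact h
  | cons l u ih =>
    rw [invRev_cons', Rd_append]
    refine ⟨ih h.2, ?_⟩
    simp only [ev, ev_inv, Rd, st_flip]
    exact ⟨h.2.mem, h.1⟩

theorem Rd_idem (u : List (A × Bool)) (x : Y) : Rd g P (u ++ invRev u) x ↔ Rd g P u x := by
  rw [Rd_append]; exact ⟨fun h => h.1, fun h => ⟨h, Rd_inv h⟩⟩

theorem ev_idem (u : List (A × Bool)) (x : Y) : ev g (u ++ invRev u) x = x := by
  rw [ev_append, ev_inv]

variable (g P) in
def con : Con (FreeMonoid (A × Bool)) where
  r u v := ∀ x, (Rd g P u.toList x ↔ Rd g P v.toList x) ∧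
    (Rd g P u.toList x → ev g u.toList x = ev g v.toList x)
  iseqv := ⟨fun _ _ => ⟨Iff.rfl, fun _ => rfl⟩,
    fun h x => ⟨(h x).1.symm, fun h' => ((h x).2 ((h x).1.2 h')).symm⟩,
    fun h h' x => ⟨(h x).1.trans (h' x).1, fun h1 => ((h x).2 h1).trans ((h' x).2 ((h x).1.1 h1))⟩⟩
  mul' := by
    intro a b c d h1 h2 x
    simp only [FreeMonoid.toList_mul, Rd_append, ev_append]
    refine ⟨⟨fun h => ⟨(h1 x).1.1 h.1, ?_⟩, fun h => ⟨(h1 x).1.2 h.1, ?_⟩⟩, fun h => ?_⟩
    · rw [← (h1 x).2 h.1]; exact (h2 _).1.1 h.2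
    · rw [(h1 x).2 ((h1 x).1.2 h.1)]; exact (h2 _).1.2 h.2
    · rw [← (h1 x).2 h.1]; exact (h2 _).2 h.2

theorem le_con {w : List (A × Bool)} (hw : ∀ x ∈ P, Rd g P w x ∧ ev g w x = x) :
    conGen (Rel w) ≤ con g P := by
  refine Con.conGen_le.2 ?_
  rintro a b (⟨u, rfl, rfl⟩ | ⟨u, v, rfl, rfl⟩ | ⟨rfl, rfl⟩) x
  · simp only [FreeMonoid.toList_ofList]
    rw [Rd_append (_ ++ invRev _), ev_append (_ ++ invRev _), Rd_idem, ev_idem]
    exact ⟨and_self_iff, fun _ => rfl⟩
  · simp only [FreeMonoid.toList_ofList]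
    rw [Rd_append (u ++ invRev u), Rd_append (v ++ invRev v), ev_append (u ++ invRev u),
      ev_append (v ++ invRev v)]
    simp only [Rd_idem, ev_idem]
    exact ⟨and_comm, fun _ => trivial⟩
  · simp only [FreeMonoid.toList_one]
    exact ⟨⟨fun h => h.mem, fun h => (hw x h).1⟩, fun h => (hw x h.mem).2⟩

theorem surj_of_unit {w u : List (A × Bool)} (hw : ∀ x ∈ P, Rd g P w x ∧ ev g w x = x)
    (hu : IsU w u) : ∀ x ∈ P, ∃ y ∈ P, ev g u y = x := by
  intro x hx
  obtain ⟨V, hV⟩ := hu.exists_left_inv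
  obtain ⟨v, rfl⟩ := Con.mk'_surjective V
  rw [← map_mul, ← map_one (conGen (Rel w)).mk'] at hV
  have h := le_con hw ((Con.eq _).1 hV) x
  simp only [FreeMonoid.toList_mul, FreeMonoid.toList_ofList, FreeMonoid.toList_one, Rd_append,
    ev_append] at h
  have h1 := h.1.2 hx
  exact ⟨_, h1.1.mem_ev, h.2 h1⟩

end rep

/-- t = y y a y⁻¹ a y⁻¹ with y = true, a = false. -/
def t : List (Bool × Bool) :=
  [(true, true), (true, true), (false, true), (true, false), (false, true), (true, false)]

def r : List (Bool × Bool) := t ++ invRev t ++ [(false, true)]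

def sh (Z : Type) : Equiv.Perm (ℤ × Z) := Equiv.prodCongr (Equiv.addRight 1) (Equiv.refl Z)

def gen {Z : Type} (α : ℤ → Equiv.Perm Z) : Bool → Equiv.Perm (ℤ × Z)
  | true => sh Z
  | false => Equiv.prodCongrRight α

theorem ev_t {Z : Type} (α : ℤ → Equiv.Perm Z) (i : ℤ) (z : Z) :
    ev (gen α) t (i, z) = (i, α (i + 1) (α (i + 1 + 1) z)) := by
  simp [ev, t, st, gen, sh, Equiv.Perm.inv_def]

theorem t_mem : t ∈ MinPieces r := by
  have key : ∀ u : List (Bool × Bool),
      (conGen (Rel r)).mk' (FreeMonoid.ofList u) * (conGen (Rel r)).mk' (FreeMonoid.ofList (invRev u))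
        * (conGen (Rel r)).mk' (FreeMonoid.ofList u) = (conGen (Rel r)).mk' (FreeMonoid.ofList u) := by
    intro u
    rw [← map_mul, ← map_mul, ← FreeMonoid.ofList_append, ← FreeMonoid.ofList_append]
    exact (Con.eq _).2 (ConGen.Rel.of _ _ (Or.inl ⟨u, rfl, rfl⟩))
  have hr : (conGen (Rel r)).mk' (FreeMonoid.ofList t) * (conGen (Rel r)).mk' (FreeMonoid.ofList (invRev t))
      * (conGen (Rel r)).mk' (FreeMonoid.ofList [(false, true)]) = 1 := by
    rw [← map_mul, ← map_mul, ← FreeMonoid.ofList_append, ← FreeMonoid.ofList_append,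
      ← map_one (conGen (Rel r)).mk']
    exact (Con.eq _).2 (ConGen.Rel.of _ _ (Or.inr (Or.inr ⟨rfl, rfl⟩)))
  have hT := key t
  have hY := key [(true, true), (true, true)]
  have e1 : (conGen (Rel r)).mk' (FreeMonoid.ofList t) =
      (conGen (Rel r)).mk' (FreeMonoid.ofList [(true, true), (true, true)]) *
      (conGen (Rel r)).mk' (FreeMonoid.ofList [(false, true)]) *
      (conGen (Rel r)).mk' (FreeMonoid.ofList [(true, false)]) *
      (conGen (Rel r)).mk' (FreeMonoid.ofList [(false, true)]) *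
      (conGen (Rel r)).mk' (FreeMonoid.ofList [(true, false)]) := by
    simp only [← map_mul, ← FreeMonoid.ofList_append]; rfl
  have e2 : (conGen (Rel r)).mk' (FreeMonoid.ofList (invRev [(true, true), (true, true)])) =
      (conGen (Rel r)).mk' (FreeMonoid.ofList [(true, false)]) *
      (conGen (Rel r)).mk' (FreeMonoid.ofList [(true, false)]) := by
    simp only [← map_mul, ← FreeMonoid.ofList_append]; rfl
  rw [e2] at hY
  generalize (conGen (Rel r)).mk' (FreeMonoid.ofList (invRev t)) = T' at *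
  generalize (conGen (Rel r)).mk' (FreeMonoid.ofList [(false, true)]) = a at *
  generalize (conGen (Rel r)).mk' (FreeMonoid.ofList [(true, false)]) = y' at *
  generalize (conGen (Rel r)).mk' (FreeMonoid.ofList [(true, true), (true, true)]) = Y at *
  have hunit : IsU r t := by
    unfold IsU
    generalize (conGen (Rel r)).mk' (FreeMonoid.ofList t) = T at *
    have hE : T * T' = 1 := by
      calc T * T' = T * T' * (T * T' * a) := by rw [hr, mul_one]
        _ = (T * T' * T) * T' * a := by simp only [mul_assoc]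
        _ = 1 := by rw [hT, hr]
    have ha : a = 1 := by rw [hE, one_mul] at hr; exact hr
    subst ha
    have hTT : T * T = T := by
      rw [e1]
      calc Y * 1 * y' * 1 * y' * (Y * 1 * y' * 1 * y') = (Y * (y' * y') * Y) * y' * y' := by
            simp only [mul_one, mul_assoc]
        _ = _ := by rw [hY]; simp only [mul_one]
    have : T = 1 := by
      calc T = T * (T * T') := by rw [hE, mul_one]
        _ = 1 := by rw [← mul_assoc, hTT, hE]
    rw [this]; exact isUnit_one
  refine ⟨by simp [t], [], invRev t ++ [(false, true)], by simp [r], ?_, hunit, ?_⟩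
  · exact isUnit_one
  · intro v v' h hv hv' hu
    have hw : ∀ x ∈ {x : ℤ × PUnit | 0 ≤ x.1}, Rd (gen fun _ => 1) {x : ℤ × PUnit | 0 ≤ x.1} r x ∧
        ev (gen fun _ => 1) r x = x := by
      rintro ⟨i, z⟩ hx
      have hx : 0 ≤ i := hx
      rw [r, Rd_append (t ++ invRev t), ev_append (t ++ invRev t), Rd_idem, ev_idem]
      simp [Rd, ev, t, st, gen, sh, Equiv.Perm.inv_def]
      omega
    obtain ⟨⟨i, z⟩, hy, he⟩ := surj_of_unit hw hu (0, PUnit.unit) (le_refl (0 : ℤ))
    have hy : 0 ≤ i := hy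
    have hl : v = t.take v.length := by rw [h]; simp
    have hlen : v.length < 6 := by
      have := congrArg List.length h
      have h2 := List.length_pos_iff.2 hv'
      simp [t] at this; omega
    have hpos := List.length_pos_iff.2 hv
    rw [hl] at he
    generalize v.length = n at *
    interval_cases n <;> simp [ev, t, st, gen, sh, Equiv.Perm.inv_def] at he <;> omega

theorem not_unit (k : ℕ) (hk : 2 ≤ k) : ¬ IsU (List.replicate k r).flatten t := by
  intro hu
  have hζ := Complex.isPrimitiveRoot_exp k (by omega)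
  generalize Complex.exp (2 * Real.pi * Complex.I / k) = ζ at hζ
  have h1 : ζ ≠ 1 := hζ.ne_one (by omega)
  have h0 : ζ ≠ 0 := hζ.ne_zero (by omega)
  have hk1 : ζ ^ k = 1 := hζ.pow_eq_one
  have h1' : ζ - 1 ≠ 0 := sub_ne_zero.2 h1
  let c : ℂ := ζ / (ζ - 1)
  let a2 : Equiv.Perm ℂ := Equiv.mulLeft₀ ζ h0
  let a1 : Equiv.Perm ℂ := Equiv.addRight c * a2⁻¹ * (Equiv.addRight c)⁻¹
  have ha2 : a2 ^ k = 1 := by
    have : ∀ n : ℕ, ∀ z, (a2 ^ n) z = ζ ^ n * z := by
      intro n; induction n with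
      | zero => simp
      | succ n ih => intro z; rw [pow_succ', Equiv.Perm.mul_apply, ih]; simp [a2]; ring
    ext z; simp [this, hk1]
  have ha1 : a1 ^ k = 1 := by simp only [a1]; rw [conj_pow, inv_pow, ha2, inv_one, mul_one, mul_inv_cancel]
  have h12 : ∀ z, a1 (a2 z) = z + 1 := by
    intro z
    simp [a1, a2, c, Equiv.Perm.inv_def]
    field_simp
    ring
  let α : ℤ → Equiv.Perm ℂ := fun i => if i = 1 then a1 else if i = 2 then a2 else 1
  have hα : ∀ i, α i ^ k = 1 := by
    intro i; simp only [α]; split_ifs <;> simp [ha1, ha2]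
  let P : Set (ℤ × ℂ) := {x | 1 ≤ x.1 ∨ (x.1 = 0 ∧ 0 ≤ x.2.re)}
  have ht0 : ∀ z, ev (gen α) t (0, z) = (0, z + 1) := by
    intro z; rw [ev_t]; simp [α, h12]
  have hr : ∀ i z, (i, z) ∈ P → Rd (gen α) P r (i, z) ∧ ev (gen α) r (i, z) = (i, α i z) ∧
      (i, α i z) ∈ P := by
    intro i z hx
    have hl : (i, α i z) ∈ P := by
      rcases hx with h | ⟨h, h'⟩
      · exact Or.inl h
      · have h : i = 0 := h
        subst h; exact Or.inr ⟨rfl, by simpa [α] using h'⟩
    have hlast : ev (gen α) t (i, z) ∈ P := by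
      rcases hx with h | ⟨h, h'⟩
      · rw [ev_t]; exact Or.inl h
      · have h : i = 0 := h
        subst h; rw [ht0]; refine Or.inr ⟨rfl, ?_⟩
        have h' : 0 ≤ z.re := h'
        simp; linarith
    have hi : 0 ≤ i := by
      rcases hx with h | ⟨h, -⟩
      · have h : 1 ≤ i := h
        omega
      · exact le_of_eq h.symm
    rw [r, Rd_append (t ++ invRev t), ev_append (t ++ invRev t), Rd_idem, ev_idem]
    refine ⟨⟨⟨hx, ?_, ?_, ?_, ?_, ?_, hlast⟩, hx, hl⟩, rfl, hl⟩ <;>
      (left; simp [st, gen, sh, Equiv.Perm.inv_def]; try omega)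
  have hw : ∀ n : ℕ, ∀ i z, (i, z) ∈ P → Rd (gen α) P (List.replicate n r).flatten (i, z) ∧
      ev (gen α) (List.replicate n r).flatten (i, z) = (i, (α i ^ n) z) := by
    intro n; induction n with
    | zero => intro i z h; exact ⟨h, rfl⟩
    | succ n ih =>
      intro i z h
      obtain ⟨h1, h2, h3⟩ := hr i z h
      rw [List.replicate_succ, List.flatten_cons, Rd_append, ev_append, h2, pow_succ,
        Equiv.Perm.mul_apply]
      exact ⟨⟨h1, (ih _ _ h3).1⟩, (ih _ _ h3).2⟩
  obtain ⟨⟨i, z⟩, hy, he⟩ := surj_of_unit (g := gen α) (P := P) (by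
    rintro ⟨i, z⟩ hx
    have := hw k i z hx
    rw [hα] at this; exact this) hu (0, 0) (Or.inr ⟨rfl, le_refl _⟩)
  have hi : i = 0 := by rw [ev_t] at he; exact congrArg Prod.fst he
  subst hi
  rw [ht0] at he
  have hz := congrArg (fun x : ℤ × ℂ => x.2.re) he
  rcases hy with h | ⟨-, h⟩
  · exact absurd h (by simp)
  · have h : 0 ≤ z.re := h
    simp at hz; linarith

theorem result : ∃ r : List (Bool × Bool), r ≠ [] ∧
    ∀ k : ℕ, 2 ≤ k → MinPieces (List.replicate k r).flatten ≠ MinPieces r := by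
  refine ⟨r, by simp [r], fun k hk h => not_unit k hk ?_⟩
  obtain ⟨-, p, s, -, h1, h2, -⟩ := h ▸ t_mem
  unfold IsU at *
  rw [FreeMonoid.ofList_append, map_mul] at h2
  exact (h1.mul_left_iff).1 h2

end Pool.Agent.Results.MP_d4551b_al.Pieces
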